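import Pool.Agent.W826.PB.Props

set_option autoImplicit false

namespace Pool.Agent.W768.PB

open Pool.Agent.W826.PB

theorem nb_le {d : ℕ} (x : Fin d → ℤ) (j : Fin d × Bool) (i : Fin d) :
    |nb x j i - x i| ≤ 1 := by
  unfold nb
  simp only [Pi.add_apply, add_sub_cancel_left]
  by_cases h : i = j.1
  · subst h
    simp only [Pi.single_eq_same]
    split_ifs <;> simp
  · rw [Pi.single_eq_of_ne h]; simp

theorem main : P_local := by
  intro d r t
  induction t with
  | zero =>
    intro y ξ η h
    have := h y (fun i => by simp)
    simp [occ, this]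
  | succ t ih =>
    intro y ξ η h
    have hy : ξ y = η y := h y (fun i => by simp; positivity)
    have h0 : y ∈ occ r ξ t ↔ y ∈ occ r η t :=
      ih y ξ η (fun x hx => h x (fun i => le_trans (hx i) (by push_cast; linarith)))
    have h1 : ∀ j : Fin d × Bool, nb y j ∈ occ r ξ t ↔ nb y j ∈ occ r η t := by
      intro j
      refine ih (nb y j) ξ η (fun x hx => h x (fun i => ?_))
      have h2 := hx i
      have h3 := nb_le y j i
      have h4 : x i - y i = (x i - nb y j i) + (nb y j i - y i) := by ring
      rw [h4]
      push_cast
      exact le_trans (abs_add_le _ _) (by linarith)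
    have h2 : cnt (occ r ξ t) y = cnt (occ r η t) y := by
      unfold cnt
      congr 1
      ext j
      simp only [Finset.mem_filter, Finset.mem_univ, true_and]
      exact h1 j
    simp only [occ, Set.mem_ofPred_eq]
    rw [h0, hy, h2]

end Pool.Agent.W768.PB
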